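import Pool.Agent.Helper55.CF.Goals

/-!
# The types 0 and 4 (packet A04)
-/

open MeasureTheory Complex
open scoped ContDiff ComplexConjugate

noncomputable section
namespace CF55
namespace PkA04

/-- a smooth bump function, equal to `1` near the origin -/
theorem exists_bump (r : ℝ) (hr : 0 < r) : ∃ ψ : E → ℝ, ContDiff ℝ ∞ ψ ∧ HasCompactSupport ψ ∧
    tsupport ψ ⊆ Metric.ball 0 r ∧ (∀ x, 0 ≤ ψ x) ∧ ∃ δ : ℝ, 0 < δ ∧
      ∀ x ∈ Metric.closedBall (0 : E) δ, ψ x = 1 := by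
  let b : ContDiffBump (0 : E) := ⟨r / 4, r / 2, by linarith, by linarith⟩
  refine ⟨b, b.contDiff, b.hasCompactSupport, ?_, fun x => b.nonneg, r / 4, by linarith, ?_⟩
  · rw [b.tsupport_eq]
    exact Metric.closedBall_subset_ball (by change r / 2 < r; linarith)
  · intro x hx
    exact b.one_of_mem_closedBall hx

theorem lim_zero (C : ℝ) (k : ℕ) :
    Filter.Tendsto (fun s : ℝ => C * Real.log s ^ k / s) Filter.atTop (nhds 0) := by
  have h := (Real.isLittleO_pow_log_id_atTop (n := k)).tendsto_div_nhds_zero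
  have h2 := h.const_mul C
  simpa [mul_div_assoc] using h2

/-- box of size `t` -/
def Bx (δ t : ℝ) : Set E :=
  Metric.closedBall (0 : ℂ) t ×ˢ (Metric.closedBall (0 : ℂ) δ ×ˢ Metric.closedBall (0 : Z) δ)

theorem vol_Bx (δ t : ℝ) (hδ : 0 < δ) (ht : 0 ≤ t) : ∃ c : ℝ, 0 < c ∧
    (∀ t, 0 ≤ t → (volume (Bx δ t)).toReal = c * t ^ 2) := by
  have _ := ht
  refine ⟨Real.pi * (volume (Metric.closedBall (0 : ℂ) δ ×ˢ
    Metric.closedBall (0 : Z) δ)).toReal, ?_, ?_⟩
  · apply mul_pos Real.pi_pos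
    rw [Measure.volume_eq_prod, Measure.prod_prod, ENNReal.toReal_mul]
    apply mul_pos
    · exact ENNReal.toReal_pos (Metric.measure_closedBall_pos _ _ hδ).ne'
        measure_closedBall_lt_top.ne
    · exact ENNReal.toReal_pos (Metric.measure_closedBall_pos _ _ hδ).ne'
        measure_closedBall_lt_top.ne
  · intro t ht
    rw [Bx, Measure.volume_eq_prod, Measure.prod_prod, ENNReal.toReal_mul,
      Complex.volume_closedBall, ENNReal.toReal_mul, ENNReal.toReal_pow,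
      ENNReal.toReal_ofReal ht]
    simp only [ENNReal.coe_toReal, NNReal.coe_real_pi]
    ring

theorem stmtA0 : G_A0 := by
  rintro ⟨r, hr, h⟩
  obtain ⟨ψ, h1, h2, h3, h4, δ, hδ, h5⟩ := exists_bump r hr
  obtain ⟨C, k, hC⟩ := h ψ h1 h2 h3
  have hint : Integrable ψ := h1.continuous.integrable_of_hasCompactSupport h2
  have hpos : 0 < ∫ x, ψ x := by
    rw [integral_pos_iff_support_of_nonneg (fun x => h4 x) hint]
    refine lt_of_lt_of_le (Metric.measure_closedBall_pos volume (0 : E) hδ) (measure_mono ?_)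
    intro x hx
    rw [Function.mem_support, h5 x hx]
    exact one_ne_zero
  have hlim := lim_zero C k
  have hev : ∀ᶠ s : ℝ in Filter.atTop, C * Real.log s ^ k / s < ∫ x, ψ x :=
    hlim.eventually (gt_mem_nhds hpos)
  obtain ⟨s, hs, hs2⟩ := (hev.and (Filter.eventually_ge_atTop 2)).exists
  have h6 := (hC s hs2).1
  simp only [norm_zero, ne_eq, OfNat.ofNat_ne_zero, not_false_eq_true, zero_pow, mul_zero,
    neg_zero, Real.exp_zero, one_mul] at h6
  have h7 := (le_abs_self _).trans h6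
  linarith

theorem chart_eq (T : Tri) (e : Fin 6 → V) (hT : A4data T e) (p : E) :
    chart T e p = T (e 1) (e 1) (e 1) * p.1 ^ 3 := by
  have z3 : ∀ a b c, c ≠ 1 → T (e a) (e b) (e c) = 0 := fun a b c hc =>
    hT.t a b c (fun h => hc h.2.2)
  have z2 : ∀ a b c, b ≠ 1 → T (e a) (e b) (e c) = 0 := fun a b c hb =>
    hT.t a b c (fun h => hb h.2.1)
  have z1 : ∀ a b c, a ≠ 1 → T (e a) (e b) (e c) = 0 := fun a b c ha =>
    hT.t a b c (fun h => ha h.1)
  have s1 : ∀ a b, T (e a) (e b) (chartVec e p) = p.1 * T (e a) (e b) (e 1) := by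
    intro a b
    simp only [chartVec, map_add, map_smul, smul_eq_mul]
    rw [z3 a b 0 (by decide), z3 a b 2 (by decide), z3 a b 3 (by decide), z3 a b 4 (by decide),
      z3 a b 5 (by decide)]
    ring
  have s2 : ∀ a, T (e a) (chartVec e p) (chartVec e p) = p.1 ^ 2 * T (e a) (e 1) (e 1) := by
    intro a
    have hx : T (e a) (chartVec e p) = T (e a) (e 0) + p.1 • T (e a) (e 1) +
        p.2.1 • T (e a) (e 2) + p.2.2 0 • T (e a) (e 3) + p.2.2 1 • T (e a) (e 4) +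
        p.2.2 2 • T (e a) (e 5) := by
      rw [chartVec]
      simp only [map_add, map_smul]
    rw [hx]
    simp only [LinearMap.add_apply, LinearMap.smul_apply, smul_eq_mul, s1]
    rw [z2 a 0 1 (by decide), z2 a 2 1 (by decide), z2 a 3 1 (by decide), z2 a 4 1 (by decide),
      z2 a 5 1 (by decide)]
    ring
  have hx : T (chartVec e p) = T (e 0) + p.1 • T (e 1) + p.2.1 • T (e 2) + p.2.2 0 • T (e 3) +
      p.2.2 1 • T (e 4) + p.2.2 2 • T (e 5) := by
    rw [chartVec]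
    simp only [map_add, map_smul]
  rw [chart, hx]
  simp only [LinearMap.add_apply, LinearMap.smul_apply, smul_eq_mul, s2]
  rw [z1 0 1 1 (by decide), z1 2 1 1 (by decide), z1 3 1 1 (by decide), z1 4 1 1 (by decide),
    z1 5 1 1 (by decide)]
  ring

theorem stmtA4 : G_A4 := by
  rintro T e hS hT ⟨r, hr, h⟩
  have _ := hS
  obtain ⟨ψ, h1, h2, h3, h4, δ, hδ, h5⟩ := exists_bump r hr
  obtain ⟨C, k, hC⟩ := h ψ h1 h2 h3
  set κ := T (e 1) (e 1) (e 1) with hκ
  have hch : chart T e = fun p : E => κ * p.1 ^ 3 := by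
    funext p
    exact chart_eq T e hT p
  obtain ⟨c, hc, hvol⟩ := vol_Bx δ 0 hδ le_rfl
  -- the lower bound
  have low : ∀ s : ℝ, 1 ≤ s → s⁻¹ ≤ δ →
      Real.exp (-‖κ‖ ^ 2) * (c * s⁻¹ ^ 2) ≤
        ∫ x, Real.exp (-(s ^ 6 * ‖chart T e x‖ ^ 2)) * ψ x := by
    intro s hs hsδ
    have hs0 : 0 < s := by linarith
    have hcont : Continuous fun x : E => Real.exp (-(s ^ 6 * ‖chart T e x‖ ^ 2)) * ψ x := by
      rw [hch]
      have := h1.continuous
      fun_prop
    have hint : Integrable fun x : E => Real.exp (-(s ^ 6 * ‖chart T e x‖ ^ 2)) * ψ x :=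
      hcont.integrable_of_hasCompactSupport h2.mul_left
    have hmeas : MeasurableSet (Bx δ s⁻¹) :=
      Metric.isClosed_closedBall.measurableSet.prod
        (Metric.isClosed_closedBall.measurableSet.prod Metric.isClosed_closedBall.measurableSet)
    have hfin : volume (Bx δ s⁻¹) < ⊤ := by
      have hc : IsCompact (Bx δ s⁻¹) := (isCompact_closedBall _ _).prod
        ((isCompact_closedBall _ _).prod (isCompact_closedBall _ _))
      exact hc.measure_lt_top
    have hind : ∫ x, (Bx δ s⁻¹).indicator (fun _ => Real.exp (-‖κ‖ ^ 2)) x =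
        Real.exp (-‖κ‖ ^ 2) * (c * s⁻¹ ^ 2) := by
      rw [integral_indicator_const _ hmeas, Measure.real, hvol _ (by positivity), smul_eq_mul,
        mul_comm]
    rw [← hind]
    refine integral_mono ((integrable_indicator_iff hmeas).mpr
      (integrableOn_const hfin.ne)) hint ?_
    intro x
    by_cases hx : x ∈ Bx δ s⁻¹
    · have hx1 : ‖x.1‖ ≤ s⁻¹ := by simpa using hx.1
      have hx2 : ‖x.2.1‖ ≤ δ := by simpa using hx.2.1
      have hx3 : ‖x.2.2‖ ≤ δ := by simpa using hx.2.2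
      have hψ : ψ x = 1 := by
        apply h5
        rw [mem_closedBall_zero_iff, Prod.norm_def, Prod.norm_def]
        exact max_le (hx1.trans hsδ) (max_le hx2 hx3)
      simp only [Set.indicator_of_mem hx, hψ, mul_one]
      apply Real.exp_le_exp.mpr
      rw [hch]
      simp only [norm_mul, norm_pow]
      have h6 : (‖x.1‖ ^ 3) ^ 2 ≤ (s⁻¹ ^ 3) ^ 2 := by gcongr
      have h7 : s ^ 6 * (‖κ‖ * ‖x.1‖ ^ 3) ^ 2 ≤ ‖κ‖ ^ 2 := by
        calc s ^ 6 * (‖κ‖ * ‖x.1‖ ^ 3) ^ 2 = ‖κ‖ ^ 2 * (s ^ 6 * (‖x.1‖ ^ 3) ^ 2) := by ring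
          _ ≤ ‖κ‖ ^ 2 * (s ^ 6 * (s⁻¹ ^ 3) ^ 2) := by gcongr
          _ = ‖κ‖ ^ 2 := by
            field_simp
      linarith
    · simp only [Set.indicator_of_notMem hx]
      exact mul_nonneg (Real.exp_pos _).le (h4 x)
  -- the contradiction
  have hlim := lim_zero (C * 6 ^ k) k
  have hA : 0 < Real.exp (-‖κ‖ ^ 2) * c := by positivity
  have hev : ∀ᶠ s : ℝ in Filter.atTop,
      C * 6 ^ k * Real.log s ^ k / s < Real.exp (-‖κ‖ ^ 2) * c :=
    hlim.eventually (gt_mem_nhds hA)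
  obtain ⟨s, ⟨hs, hs2⟩, hs3⟩ := ((hev.and (Filter.eventually_ge_atTop 2)).and
    (Filter.eventually_ge_atTop δ⁻¹)).exists
  have hs0 : 0 < s := by linarith
  have hsδ : s⁻¹ ≤ δ := by
    rw [inv_le_comm₀ hs0 hδ]
    exact hs3
  have hs6 : 2 ≤ s ^ 6 := by
    have : (1 : ℝ) ≤ s ^ 5 := one_le_pow₀ (by linarith)
    nlinarith
  have h6 := (le_abs_self _).trans (hC (s ^ 6) hs6).1
  have h7 := (low s (by linarith) hsδ).trans h6
  rw [Real.log_pow] at h7
  have h8 : C * ((6 : ℕ) * Real.log s) ^ k / s ^ 6 = (C * 6 ^ k * Real.log s ^ k / s) / s ^ 5 := by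
    rw [mul_pow]
    push_cast
    field_simp
  rw [h8] at h7
  have h9 : (C * 6 ^ k * Real.log s ^ k / s) / s ^ 5 <
      Real.exp (-‖κ‖ ^ 2) * c / s ^ 5 := by
    gcongr
  have h10 : Real.exp (-‖κ‖ ^ 2) * c / s ^ 5 ≤ Real.exp (-‖κ‖ ^ 2) * (c * s⁻¹ ^ 2) := by
    have h11 : (s ^ 5)⁻¹ ≤ s⁻¹ ^ 2 := by
      rw [inv_pow]
      gcongr
      · linarith
      · norm_num
    calc Real.exp (-‖κ‖ ^ 2) * c / s ^ 5 = Real.exp (-‖κ‖ ^ 2) * c * (s ^ 5)⁻¹ := by
          rw [div_eq_mul_inv]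
      _ ≤ Real.exp (-‖κ‖ ^ 2) * c * s⁻¹ ^ 2 := by gcongr
      _ = _ := by ring
  linarith

end PkA04

theorem stmtA0 : G_A0 := PkA04.stmtA0
theorem stmtA4 : G_A4 := PkA04.stmtA4

end CF55
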