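import Pool.Agent.Helper45.CF.GoalsB
import Pool.Agent.Helper32.CAR.IL
import Pool.Agent.Helper52.CAR.EXT

/-!
# Project CF (MP_d97caa_an), packet FB: the algebra of the field and the evaluations
-/

open scoped ComplexOrder ZeroAtInfty Topology ComplexConjugate
open TopologicalSpace Filter

namespace Pool.Agent.Helper32.CF

open Pool.Agent.Helper34.CAR Pool.Agent.Helper39.CR Pool.Agent.Helper39.Uct
  Pool.Agent.Helper39.CarDefs Pool.Agent.Helper45.CF

noncomputable section

/-- conjugation by a unitary -/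
def conjU {A : Type} [CStarAlgebra A] (V : A) (h1 : star V * V = 1) (h2 : V * star V = 1) :
    A →⋆ₐ[ℂ] A where
  toFun a := star V * a * V
  map_one' := by rw [mul_one, h1]
  map_mul' a b := by
    rw [show star V * a * V * (star V * b * V) = star V * a * (V * star V) * b * V by noncomm_ring,
      h2]
    noncomm_ring
  map_zero' := by simp
  map_add' a b := by noncomm_ring
  commutes' r := by
    rw [Algebra.algebraMap_eq_smul_one, mul_smul_comm, mul_one, smul_mul_assoc, h1]
  map_star' a := by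
    rw [star_mul, star_mul, star_star, mul_assoc]

/-- evaluation at a point -/
def evX {X A : Type} [TopologicalSpace X] [CompactSpace X] [CStarAlgebra A] (x : X) :
    C(X, A) →⋆ₐ[ℂ] A where
  toFun a := a x
  map_one' := rfl
  map_mul' _ _ := rfl
  map_zero' := rfl
  map_add' _ _ := rfl
  commutes' _ := rfl
  map_star' _ := rfl

/-- the connecting maps of the field -/
def kapX {Y : Type} [TopologicalSpace Y] [CompactSpace Y] {A A' : Type} [CStarAlgebra A]
    [CStarAlgebra A'] (κh : A →⋆ₐ[ℂ] C(Y, A')) (i : ℕ) :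
    C(ℕ → Y, A) →⋆ₐ[ℂ] C(ℕ → Y, A') where
  toFun a := ⟨fun x => κh (a x) (x i), by
    have h1 : Continuous fun x : ℕ → Y => κh (a x) :=
      (Pool.Agent.Helper45.CF.continuous_hom (κh : A →⋆ₙₐ[ℂ] C(Y, A'))).comp a.continuous
    exact h1.eval (continuous_apply i)⟩
  map_one' := by
    ext x
    change κh 1 (x i) = 1
    rw [map_one]
    rfl
  map_mul' a b := by
    ext x
    change κh (a x * b x) (x i) = κh (a x) (x i) * κh (b x) (x i)
    rw [map_mul]
    rfl
  map_zero' := by
    ext x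
    change κh 0 (x i) = 0
    rw [map_zero]
    rfl
  map_add' a b := by
    ext x
    change κh (a x + b x) (x i) = κh (a x) (x i) + κh (b x) (x i)
    rw [map_add]
    rfl
  commutes' r := by
    ext x
    change κh (algebraMap ℂ A r) (x i) = algebraMap ℂ A' r
    rw [AlgHomClass.commutes]
    rfl
  map_star' a := by
    ext x
    change κh (star (a x)) (x i) = star (κh (a x) (x i))
    rw [map_star]
    rfl

theorem kapX_apply {Y : Type} [TopologicalSpace Y] [CompactSpace Y] {A A' : Type}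
    [CStarAlgebra A] [CStarAlgebra A'] (κh : A →⋆ₐ[ℂ] C(Y, A')) (i : ℕ) (a : C(ℕ → Y, A))
    (x : ℕ → Y) : kapX κh i a x = κh (a x) (x i) := rfl

/-- a unit preserving homomorphism is unital -/
def toU {A B : Type} [CStarAlgebra A] [CStarAlgebra B] (F : A →⋆ₙₐ[ℂ] B) (h : F 1 = 1) :
    A →⋆ₐ[ℂ] B where
  toFun := F
  map_one' := h
  map_mul' := map_mul F
  map_zero' := map_zero F
  map_add' := map_add F
  commutes' r := by
    rw [Algebra.algebraMap_eq_smul_one, map_smul, h, ← Algebra.algebraMap_eq_smul_one]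
  map_star' := map_star F

/-- the unitaries along a point -/
def VV {A : ℕ → Type} [∀ i, CStarAlgebra (A i)] (κ : ∀ i, A i →⋆ₐ[ℂ] A (i + 1))
    (W : ∀ i, A (i + 1)) : ∀ i, A i
  | 0 => 1
  | i + 1 => W i * κ i (VV κ W i)

theorem VV_unit {A : ℕ → Type} [∀ i, CStarAlgebra (A i)] (κ : ∀ i, A i →⋆ₐ[ℂ] A (i + 1))
    (W : ∀ i, A (i + 1)) (h1 : ∀ i, star (W i) * W i = 1) (h2 : ∀ i, W i * star (W i) = 1) :
    ∀ i, star (VV κ W i) * VV κ W i = 1 ∧ VV κ W i * star (VV κ W i) = 1 := by
  intro i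
  induction i with
  | zero =>
    change star (1 : A 0) * 1 = 1 ∧ (1 : A 0) * star 1 = 1
    simp
  | succ i ih =>
    have e : VV κ W (i + 1) = W i * κ i (VV κ W i) := rfl
    rw [e, star_mul]
    constructor
    · rw [mul_assoc, ← mul_assoc (star (W i)), h1, one_mul, ← map_star, ← map_mul, ih.1, map_one]
    · rw [mul_assoc, ← mul_assoc (κ i (VV κ W i)), ← map_star, ← map_mul, ih.2, map_one, one_mul,
        h2]

/-- FB -/
theorem t : S_FB := by
  intro Y _ _ A _ κ κh hU L _ ι hι hinj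
  choose U hU1 hU2 hU3 using hU
  have hcancel : ∀ i y (a b : A i), κh i a y = κh i b y → a = b := by
    intro i y a b h
    rw [hU3, hU3] at h
    have h1 := congrArg (fun c => star (U i y) * c * U i y) h
    have h2 : ∀ c : A (i + 1), star (U i y) * (U i y * c * star (U i y)) * U i y = c := by
      intro c
      rw [show star (U i y) * (U i y * c * star (U i y)) * U i y =
        (star (U i y) * U i y) * c * (star (U i y) * U i y) by noncomm_ring, hU1, one_mul, mul_one]
    simp only [h2] at h1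
    apply hinj i
    rw [← hι i a, ← hι i b, h1]
  have hκX : ∀ i, Function.Injective (kapX (κh i) i) := by
    intro i a b hab
    ext x
    have h1 := congrArg (fun c : C(ℕ → Y, A (i + 1)) => c x) hab
    exact hcancel i (x i) _ _ h1
  obtain ⟨𝒜, i𝒜, ιX, hιX, hinjX, hdense⟩ := Pool.Agent.Helper32.CAR.il
    (fun i => C(ℕ → Y, A i)) (fun i => kapX (κh i) i) hκX
  have hπ : ∀ x : ℕ → Y, ∃ π : 𝒜 →⋆ₐ[ℂ] L, ∀ i (a : C(ℕ → Y, A i)),
      π (ιX i a) = ι i (star (VV κ (fun i => U i (x i)) i) * a x * VV κ (fun i => U i (x i)) i) := by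
    intro x
    obtain ⟨V, hV⟩ : ∃ V, V = VV κ (fun i => U i (x i)) := ⟨_, rfl⟩
    have hVu : ∀ i, star (V i) * V i = 1 ∧ V i * star (V i) = 1 := by
      rw [hV]
      exact VV_unit κ _ (fun i => hU1 i (x i)) (fun i => hU2 i (x i))
    have hVs : ∀ i, V (i + 1) = U i (x i) * κ i (V i) := by
      intro i
      rw [hV]
      rfl
    rw [← hV]
    let f : ∀ i, C(ℕ → Y, A i) →⋆ₐ[ℂ] L := fun i =>
      (ι i).comp ((conjU (V i) (hVu i).1 (hVu i).2).comp (evX x))
    have hf : ∀ i (a : C(ℕ → Y, A i)), f i a = ι i (star (V i) * a x * V i) := fun i a => rfl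
    have hfs : ∀ i (a : C(ℕ → Y, A i)), f (i + 1) (kapX (κh i) i a) = f i a := by
      intro i a
      rw [hf, hf, kapX_apply, hU3, hVs, ← hι i]
      congr 1
      rw [star_mul, map_mul, map_mul, map_star]
      rw [show star (κ i (V i)) * star (U i (x i)) * (U i (x i) * κ i (a x) * star (U i (x i))) *
        (U i (x i) * κ i (V i)) = star (κ i (V i)) * (star (U i (x i)) * U i (x i)) * κ i (a x) *
        (star (U i (x i)) * U i (x i)) * κ i (V i) by noncomm_ring, hU1, mul_one, mul_one]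
    obtain ⟨F, hF⟩ := Pool.Agent.Helper52.CAR.ext 𝒜 L (fun i => C(ℕ → Y, A i))
      (fun i => (ιX i : C(ℕ → Y, A i) →⋆ₙₐ[ℂ] 𝒜)) (fun i => (f i : C(ℕ → Y, A i) →⋆ₙₐ[ℂ] L))
      hinjX (fun i a => ⟨kapX (κh i) i a, hιX i a, hfs i a⟩) hdense
    have hF1 : F 1 = 1 := by
      have h1 := hF 0 1
      have h2 : (ιX 0) 1 = 1 := map_one (ιX 0)
      have h3 : (f 0) 1 = 1 := map_one (f 0)
      rw [← h2]
      exact h1.trans h3
    exact ⟨toU F hF1, fun i a => hF i a⟩
  choose π hπ' using hπ
  refine ⟨𝒜, i𝒜, ιX, π, ?_, hinjX, hdense, ?_⟩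
  · intro i a a' h
    have e : a' = kapX (κh i) i a := by
      ext x
      exact h x
    rw [e, hιX]
  · intro x i
    have h1 := VV_unit κ (fun i => U i (x i)) (fun i => hU1 i (x i)) (fun i => hU2 i (x i)) i
    exact ⟨_, h1.1, h1.2, fun a => hπ' x i a⟩

end

end Pool.Agent.Helper32.CF
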