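import Pool.Agent.Helper55.CF.Goals

/-!
# Normalisation of a line avoiding the singular points (packet NORM)
-/

noncomputable section
namespace CF55
namespace PkNORM

theorem dual_surj {n : ℕ} (f : Fin n → V →ₗ[ℂ] ℂ) (hf : LinearIndependent ℂ f)
    (y : Fin n → ℂ) : ∃ x, ∀ i, f i x = y i := by
  classical
  by_contra hcon
  have hlt : LinearMap.range (LinearMap.pi f) < ⊤ := by
    rw [lt_top_iff_ne_top]
    intro h
    apply hcon
    obtain ⟨x, hx⟩ := LinearMap.range_eq_top.mp h y
    exact ⟨x, fun i => congrFun hx i⟩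
  obtain ⟨φ, hφ0, hφ⟩ := Submodule.exists_le_ker_of_lt_top _ hlt
  have h1 : ∑ i, φ (Pi.single i 1) • f i = 0 := by
    apply LinearMap.ext
    intro x
    have h2 : φ (LinearMap.pi f x) = 0 := hφ ⟨x, rfl⟩
    have h3 : LinearMap.pi f x = ∑ i, (f i x) • (Pi.single i (1 : ℂ) : Fin n → ℂ) := by
      funext j
      simp [Finset.sum_apply, Pi.single_apply]
    rw [h3, map_sum] at h2
    simp only [LinearMap.sum_apply, LinearMap.smul_apply, LinearMap.zero_apply, smul_eq_mul]
    rw [← h2]
    refine Finset.sum_congr rfl fun i _ => ?_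
    rw [map_smul, smul_eq_mul, mul_comm]
  have h4 := Fintype.linearIndependent_iff.mp hf _ h1
  apply hφ0
  apply LinearMap.pi_ext'
  intro i
  apply LinearMap.ext
  intro c
  have h5 : (Pi.single i c : Fin n → ℂ) = c • (Pi.single i (1 : ℂ) : Fin n → ℂ) := by
    rw [← Pi.single_smul', smul_eq_mul, mul_one]
  simp only [LinearMap.comp_apply, LinearMap.single_apply, LinearMap.zero_apply]
  rw [h5, map_smul, h4 i, smul_zero]

theorem factor (al be ga : ℂ) : ∃ x1 x2 y1 y2 : ℂ, al = x1 * y1 ∧ be = x1 * y2 + x2 * y1 ∧
    ga = x2 * y2 := by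
  by_cases h : al = 0
  · exact ⟨0, 1, be, ga, by simp [h], by simp, by simp⟩
  · obtain ⟨s, hs⟩ := IsAlgClosed.exists_pow_nat_eq (be ^ 2 - 4 * al * ga) (n := 2) two_pos
    refine ⟨al, be - al * ((be + s) / (2 * al)), 1, (be + s) / (2 * al), by ring, by ring, ?_⟩
    field_simp
    linear_combination (1 : ℂ) * hs

theorem li6 (T : Tri) (P u v z1 z2 z3 : V) (f g : V →ₗ[ℂ] ℂ)
    (li : LinearIndependent ℂ ![P, u, v])
    (hf0 : f P = 0) (hf1 : f u = 0) (hf2 : f v = 0) (hf3 : f z1 = 1 / 3) (hf4 : f z2 = 0)
    (hf5 : f z3 = 0) (hg0 : g P = 0) (hg1 : g u = 0) (hg2 : g v = 0) (hg3 : g z1 = 0)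
    (hg4 : g z2 = 1 / 3) (hg5 : g z3 = 0)
    (h3 : ∀ a b c d : ℂ, a • P + b • u + c • v + d • z3 = 0 → d = 0) :
    LinearIndependent ℂ ![P, u, v, z1, z2, z3] := by
  rw [Fintype.linearIndependent_iff]
  intro c hc
  rw [Fin.sum_univ_six] at hc
  simp only [Matrix.cons_val] at hc
  have e1 := congrArg f hc
  simp only [map_add, map_smul, smul_eq_mul, hf0, hf1, hf2, hf3, hf4, hf5, map_zero, mul_zero,
    zero_add, add_zero] at e1
  have e2 := congrArg g hc
  simp only [map_add, map_smul, smul_eq_mul, hg0, hg1, hg2, hg3, hg4, hg5, map_zero, mul_zero,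
    zero_add, add_zero] at e2
  have c3 : c 3 = 0 := by
    have : (1 / 3 : ℂ) ≠ 0 := by norm_num
    exact (mul_eq_zero.mp e1).resolve_right this
  have c4 : c 4 = 0 := by
    have : (1 / 3 : ℂ) ≠ 0 := by norm_num
    exact (mul_eq_zero.mp e2).resolve_right this
  rw [c3, c4] at hc
  simp only [zero_smul, add_zero] at hc
  have c5 := h3 _ _ _ _ hc
  rw [c5] at hc
  simp only [zero_smul, add_zero] at hc
  have hl := Fintype.linearIndependent_iff.mp li ![c 0, c 1, c 2] (by
    rw [Fin.sum_univ_three]
    simpa using hc)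
  intro i
  fin_cases i
  · simpa using hl 0
  · simpa using hl 1
  · simpa using hl 2
  · exact c3
  · exact c4
  · exact c5

theorem stmtNORM : G_NORM := by
  intro T P u v hT hP li huuu huuv huvv hvvv hne
  have huvu : T u v u = 0 := by rw [hT.s23]; exact huuv
  have hvuu : T v u u = 0 := by rw [hT.s12]; exact huvu
  have hvuv : T v u v = 0 := by rw [hT.s12]; exact huvv
  have hvvu : T v v u = 0 := by rw [hT.s23]; exact hvuv
  have hPr : ∀ x y, T x y P = 0 := by
    intro x y
    rw [hT.s23, hT.s12]
    exact hP x y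
  have hall : ∀ a b c d e f : ℂ,
      T (a • u + b • v) (c • u + d • v) (e • u + f • v) = 0 := by
    intro a b c d e f
    simp only [map_add, map_smul, LinearMap.add_apply, LinearMap.smul_apply, smul_eq_mul, huuu,
      huuv, huvv, hvvv, huvu, hvuu, hvuv, hvvu]
    ring
  have hexp : ∀ a b c d : ℂ, ∀ x, T (a • u + b • v) (c • u + d • v) x =
      a * c * T u u x + (a * d + b * c) * T u v x + b * d * T v v x := by
    intro a b c d x
    simp only [map_add, map_smul, LinearMap.add_apply, LinearMap.smul_apply, smul_eq_mul]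
    rw [hT.s12 v u x]
    ring
  by_cases hind : LinearIndependent ℂ ![T u u, T v v, T u v]
  · obtain ⟨z1, hz1⟩ := dual_surj _ hind ![1 / 3, 0, 0]
    obtain ⟨z2, hz2⟩ := dual_surj _ hind ![0, 1 / 3, 0]
    obtain ⟨z3, hz3⟩ := dual_surj _ hind ![0, 0, 1 / 3]
    have a11 : T u u z1 = 1 / 3 := by simpa using hz1 0
    have a12 : T v v z1 = 0 := by simpa using hz1 1
    have a13 : T u v z1 = 0 := by simpa using hz1 2
    have a21 : T u u z2 = 0 := by simpa using hz2 0
    have a22 : T v v z2 = 1 / 3 := by simpa using hz2 1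
    have a23 : T u v z2 = 0 := by simpa using hz2 2
    have a31 : T u u z3 = 0 := by simpa using hz3 0
    have a32 : T v v z3 = 0 := by simpa using hz3 1
    have a33 : T u v z3 = 1 / 3 := by simpa using hz3 2
    refine ⟨![P, u, v, z1, z2, z3], 1, ?_⟩
    have hli : LinearIndependent ℂ ![P, u, v, z1, z2, z3] := by
      refine li6 T P u v z1 z2 z3 (T u u) (T v v) li (hPr _ _) huuu huuv a11 a21 a31
        (hPr _ _) hvvu hvvv a12 a22 a32 ?_
      intro a b c d h
      have h1 := congrArg (T u v) h
      simp only [map_add, map_smul, smul_eq_mul, hPr, huvu, huvv, a33, map_zero, mul_zero,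
        zero_add] at h1
      have : (1 / 3 : ℂ) ≠ 0 := by norm_num
      exact (mul_eq_zero.mp h1).resolve_right this
    exact {
      li := hli
      hκ := Or.inr rfl
      t0 := hP
      t111 := huuu
      t112 := huuv
      t122 := huvv
      t222 := hvvv
      t113 := a11
      t114 := a21
      t115 := a31
      t223 := a12
      t224 := a22
      t225 := a32
      t123 := a13
      t124 := a23
      t125 := a33 }
  · -- dependent
    rw [Fintype.linearIndependent_iff] at hind
    push Not at hind
    obtain ⟨c, hc, i0, hi0⟩ := hind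
    rw [Fin.sum_univ_three] at hc
    simp only [Matrix.cons_val] at hc
    have hrel : ∀ x, c 0 * T u u x + c 2 * T u v x + c 1 * T v v x = 0 := by
      intro x
      have := LinearMap.congr_fun hc x
      simp only [LinearMap.add_apply, LinearMap.smul_apply, smul_eq_mul,
        LinearMap.zero_apply] at this
      linear_combination this
    obtain ⟨x1, x2, y1, y2, h0, h2, h1⟩ := factor (c 0) (c 2) (c 1)
    have hx : x1 ≠ 0 ∨ x2 ≠ 0 := by
      by_contra h
      push Not at h
      apply hi0
      fin_cases i0
      · simp [h0, h.1]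
      · simp [h1, h.2]
      · simp [h2, h.1, h.2]
    have hy : y1 ≠ 0 ∨ y2 ≠ 0 := by
      by_contra h
      push Not at h
      apply hi0
      fin_cases i0
      · simp [h0, h.1]
      · simp [h1, h.2]
      · simp [h2, h.1, h.2]
    have huv' : ∀ x, T (x1 • u + x2 • v) (y1 • u + y2 • v) x = 0 := by
      intro x
      rw [hexp, ← h0, ← h2, ← h1]
      exact hrel x
    have hD : x1 * y2 - x2 * y1 ≠ 0 := by
      intro hD
      obtain ⟨x, hx'⟩ := hne x1 x2 hx
      apply hx'
      have e1 : y1 * T (x1 • u + x2 • v) (x1 • u + x2 • v) x = 0 := by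
        have h3 := huv' x
        rw [hexp] at h3 ⊢
        linear_combination x1 * h3 - (x1 * T u v x + x2 * T v v x) * hD
      have e2 : y2 * T (x1 • u + x2 • v) (x1 • u + x2 • v) x = 0 := by
        have h3 := huv' x
        rw [hexp] at h3 ⊢
        linear_combination x2 * h3 + (x1 * T u u x + x2 * T u v x) * hD
      rcases hy with hy | hy
      · exact (mul_eq_zero.mp e1).resolve_left hy
      · exact (mul_eq_zero.mp e2).resolve_left hy
    set u' : V := x1 • u + x2 • v with hu'
    set v' : V := y1 • u + y2 • v with hv'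
    have hli2 : LinearIndependent ℂ ![T u' u', T v' v'] := by
      rw [LinearIndependent.pair_iff]
      intro s t hst
      by_contra hcon
      have hst' : s ≠ 0 ∨ t ≠ 0 := by
        by_contra h
        push Not at h
        exact hcon h
      obtain ⟨a, ha⟩ := IsAlgClosed.exists_pow_nat_eq s (n := 2) two_pos
      obtain ⟨b, hb⟩ := IsAlgClosed.exists_pow_nat_eq t (n := 2) two_pos
      have hab : a ≠ 0 ∨ b ≠ 0 := by
        rcases hst' with h | h
        · left; rintro rfl; exact h (by rw [← ha]; simp)
        · right; rintro rfl; exact h (by rw [← hb]; simp)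
      have hnz : a * x1 + b * y1 ≠ 0 ∨ a * x2 + b * y2 ≠ 0 := by
        by_contra h
        push Not at h
        have ea : a * (x1 * y2 - x2 * y1) = 0 := by
          linear_combination y2 * h.1 - y1 * h.2
        have eb : b * (x1 * y2 - x2 * y1) = 0 := by
          linear_combination x1 * h.2 - x2 * h.1
        rcases hab with h' | h'
        · exact h' ((mul_eq_zero.mp ea).resolve_right hD)
        · exact h' ((mul_eq_zero.mp eb).resolve_right hD)
      obtain ⟨x, hx'⟩ := hne _ _ hnz
      apply hx'
      have e3 := LinearMap.congr_fun hst x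
      simp only [LinearMap.add_apply, LinearMap.smul_apply, smul_eq_mul,
        LinearMap.zero_apply] at e3
      have e4 := huv' x
      rw [hu', hv', hexp] at e4
      rw [hu', hv', hexp, hexp] at e3
      rw [hexp]
      rw [← ha, ← hb] at e3
      linear_combination e3 + 2 * a * b * e4
    obtain ⟨z1, hz1⟩ := dual_surj _ hli2 ![1 / 3, 0]
    obtain ⟨z2, hz2⟩ := dual_surj _ hli2 ![0, 1 / 3]
    have a11 : T u' u' z1 = 1 / 3 := by simpa using hz1 0
    have a12 : T v' v' z1 = 0 := by simpa using hz1 1
    have a21 : T u' u' z2 = 0 := by simpa using hz2 0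
    have a22 : T v' v' z2 = 1 / 3 := by simpa using hz2 1
    -- the kernel
    obtain ⟨z3, hz3, hz3'⟩ : ∃ z3 : V, z3 ∈ LinearMap.ker ((T u' u').prod (T v' v')) ∧
        z3 ∉ Submodule.span ℂ (Set.range ![P, u', v']) := by
      by_contra hcon
      push Not at hcon
      have hle : LinearMap.ker ((T u' u').prod (T v' v')) ≤
          Submodule.span ℂ (Set.range ![P, u', v']) := hcon
      have h3 := Submodule.finrank_mono hle
      have h4 : Module.finrank ℂ (Submodule.span ℂ (Set.range ![P, u', v'])) ≤ 3 := by
        have := finrank_range_le_card (R := ℂ) ![P, u', v']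
        simpa [Set.finrank] using this
      have h5 := LinearMap.finrank_range_add_finrank_ker ((T u' u').prod (T v' v'))
      have h6 : Module.finrank ℂ (LinearMap.range ((T u' u').prod (T v' v'))) ≤ 2 := by
        have := Submodule.finrank_le (LinearMap.range ((T u' u').prod (T v' v')))
        simpa using this
      have h7 : Module.finrank ℂ V = 6 := by simp
      omega
    have a31 : T u' u' z3 = 0 := by
      have := hz3
      simp only [LinearMap.mem_ker, LinearMap.prod_apply, Function.prod_apply, Prod.mk_eq_zero] at this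
      exact this.1
    have a32 : T v' v' z3 = 0 := by
      have := hz3
      simp only [LinearMap.mem_ker, LinearMap.prod_apply, Function.prod_apply, Prod.mk_eq_zero] at this
      exact this.2
    have li' : LinearIndependent ℂ ![P, u', v'] := by
      rw [Fintype.linearIndependent_iff] at li ⊢
      intro g hg
      rw [Fin.sum_univ_three] at hg
      simp only [Matrix.cons_val] at hg
      have h3 := li ![g 0, g 1 * x1 + g 2 * y1, g 1 * x2 + g 2 * y2] (by
        rw [Fin.sum_univ_three]
        simp only [Matrix.cons_val]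
        rw [← hg, hu', hv']
        module)
      have g0 : g 0 = 0 := by simpa using h3 0
      have e1 : g 1 * x1 + g 2 * y1 = 0 := by simpa using h3 1
      have e2 : g 1 * x2 + g 2 * y2 = 0 := by simpa using h3 2
      have ea : g 1 * (x1 * y2 - x2 * y1) = 0 := by
        linear_combination y2 * e1 - y1 * e2
      have eb : g 2 * (x1 * y2 - x2 * y1) = 0 := by
        linear_combination x1 * e2 - x2 * e1
      intro i
      fin_cases i
      · exact g0
      · exact (mul_eq_zero.mp ea).resolve_right hD
      · exact (mul_eq_zero.mp eb).resolve_right hD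
    have hli : LinearIndependent ℂ ![P, u', v', z1, z2, z3] := by
      refine li6 T P u' v' z1 z2 z3 (T u' u') (T v' v') li' (hPr _ _) (hall _ _ _ _ _ _)
        (hall _ _ _ _ _ _) a11 a21 a31 (hPr _ _) (hall _ _ _ _ _ _) (hall _ _ _ _ _ _)
        a12 a22 a32 ?_
      intro a b c d h
      by_contra hd
      apply hz3'
      have h3 : z3 = (-(a / d)) • P + (-(b / d)) • u' + (-(c / d)) • v' := by
        have h4 : d • z3 = -(a • P + b • u' + c • v') := by
          rw [eq_neg_iff_add_eq_zero, add_comm]
          exact h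
        have h5 : z3 = d⁻¹ • (d • z3) := by
          rw [smul_smul, inv_mul_cancel₀ hd, one_smul]
        rw [h5, h4]
        simp only [smul_neg, smul_add, smul_smul, neg_smul, div_eq_inv_mul]
        abel
      rw [h3]
      have m0 : P ∈ Submodule.span ℂ (Set.range ![P, u', v']) :=
        Submodule.subset_span ⟨0, rfl⟩
      have m1 : u' ∈ Submodule.span ℂ (Set.range ![P, u', v']) :=
        Submodule.subset_span ⟨1, rfl⟩
      have m2 : v' ∈ Submodule.span ℂ (Set.range ![P, u', v']) :=
        Submodule.subset_span ⟨2, rfl⟩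
      exact Submodule.add_mem _ (Submodule.add_mem _ (Submodule.smul_mem _ _ m0)
        (Submodule.smul_mem _ _ m1)) (Submodule.smul_mem _ _ m2)
    refine ⟨![P, u', v', z1, z2, z3], 0, ?_⟩
    exact {
      li := hli
      hκ := Or.inl rfl
      t0 := hP
      t111 := hall _ _ _ _ _ _
      t112 := hall _ _ _ _ _ _
      t122 := hall _ _ _ _ _ _
      t222 := hall _ _ _ _ _ _
      t113 := a11
      t114 := a21
      t115 := a31
      t223 := a12
      t224 := a22
      t225 := a32
      t123 := huv' _
      t124 := huv' _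
      t125 := by rw [zero_div]; exact huv' _ }

end PkNORM

theorem stmtNORM : G_NORM := PkNORM.stmtNORM

end CF55
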